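import Pool.Agent.H724R3.Hd.Glue

set_option autoImplicit false

/-!
# The homological dimensions of the Volterra algebra are infinite

The notions (`BdLin`, `BdBilin`, `BdMult`, `LMod`, `IsMor`, `Projective`, `ProjRes`, `dh`, `Irred`,
`BiMod`, `hoch`, `HZero`, `ds`, `dg`, `db`, `Volt`) are defined in
`Pool/Agent/H724R3/Hd/Defs.lean`.

Idea of the proof.  Let `A` be the Volterra algebra and let `Y` be the set of those elements of the
bidual of `A` which have no mass at `0`, that is the norm closure of the union of the biduals of the
ideals `L¹[t, 1]`, `t > 0`.  The inclusion of `A` in `Y` is a morphism which is not given by an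
element of `Y`, so `Ext^1(ℂ, Y) ≠ 0`.  Since `Y` is an `ℓ¹`-sum of pieces, it is a quotient of the
`ℓ¹`-sum of the biduals of the ideals `L¹[t_n, 1]`, by a map which splits as a map of Banach spaces.
This `ℓ¹`-sum has no cohomology with `ℂ` in the first variable (limits along an ultrafilter, and the
bounded approximate identity of `A`), and the kernel has the same structure as `Y`.  Iterating, one
gets modules `Y_n` with `Ext^n(ℂ, Y_n) ≠ 0` for every `n`.
-/

namespace Pool.Agent.Results.MP_b3f6df_an.VolterraDims

open Pool.Agent.H724R3.Hd

/-- The left small dimension, the left global dimension and the bidimension of the Volterra algebra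
are all infinite. -/
theorem result : ds Volt = ⊤ ∧ dg Volt = ⊤ ∧ db Volt = ⊤ := volt_dims

end Pool.Agent.Results.MP_b3f6df_an.VolterraDims
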